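import Mathlib
import Pool.Agent.Work.MP_ce2d68_st.Interface

set_option autoImplicit false

open Polynomial Filter Topology
open scoped ComplexConjugate

namespace Pool.Agent.Work.MP_ce2d68_st.helper71

open Pool.Agent.Work.MP_ce2d68_st

theorem ach_mono {θ x y : ℝ} (hxy : x ≤ y) (h : Ach θ x) : Ach θ y := by
  intro ε hε D
  obtain ⟨F, h1, h2, h3⟩ := h ε hε D
  exact ⟨F, h1, h2, by linarith⟩

theorem coeff_zero_ne {P : ℤ[X]} (hm : P.Monic) (hi : Irreducible P) (hX : P ≠ X) :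
    P.coeff 0 ≠ 0 := by
  intro h0
  have h1 : X ∣ P := Polynomial.X_dvd_iff.mpr h0
  have h2 : Associated X P := by
    obtain ⟨Q, hQ⟩ := h1
    rcases hi.isUnit_or_isUnit hQ with h | h
    · exact absurd h Polynomial.not_isUnit_X
    · obtain ⟨u, hu⟩ := h
      exact ⟨u, by rw [hu, hQ]⟩
  exact hX (Polynomial.eq_of_monic_of_associated Polynomial.monic_X hm h2).symm

theorem mem_rts {P : ℤ[X]} {a : ℂ} : a ∈ rts P ↔ cp P ≠ 0 ∧ (cp P).eval a = 0 := by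
  unfold rts
  rw [Multiset.mem_toFinset, Polynomial.mem_roots']
  rfl

theorem ev_zero (P : ℤ[X]) : ev P 0 = (P.coeff 0 : ℂ) := by
  unfold ev cp
  rw [← Polynomial.coeff_zero_eq_eval_zero, Polynomial.coeff_map]
  rfl

theorem root_ne_zero {P : ℤ[X]} (hm : P.Monic) (hi : Irreducible P) (hX : P ≠ X) {a : ℂ}
    (ha : a ∈ rts P) : a ≠ 0 := by
  intro h
  subst h
  have h1 := (mem_rts.mp ha).2
  have h2 := ev_zero P
  unfold ev at h2
  rw [h1] at h2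
  exact coeff_zero_ne hm hi hX (by exact_mod_cast h2.symm)

theorem norm_ev_rts (hBAS : Stmt_BAS) {P : ℤ[X]} (hm : P.Monic) (hi : Irreducible P) (z : ℂ) :
    ‖ev P z‖ = ∏ a ∈ rts P, ‖z - a‖ := by
  obtain ⟨-, h2, -⟩ := hBAS P hm hi
  unfold ev
  rw [h2, Polynomial.eval_prod, norm_prod]
  exact Finset.prod_congr rfl fun a _ => by simp

theorem norm_ev_pr (hBASF : Stmt_BASF) {Ps : Finset ℤ[X]} (hF : Fam Ps) (z : ℂ) :
    ‖ev (pr Ps) z‖ = ∏ a ∈ rs Ps, ‖z - a‖ := by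
  obtain ⟨-, -, h2, -⟩ := hBASF Ps hF
  unfold ev
  rw [h2, Polynomial.eval_prod, norm_prod]
  exact Finset.prod_congr rfl fun a _ => by simp

theorem sum_log_nonneg (hBAS : Stmt_BAS) {P : ℤ[X]} (hm : P.Monic) (hi : Irreducible P)
    (hX : P ≠ X) : 0 ≤ ∑ a ∈ rts P, Real.log ‖a‖ := by
  have h1 := norm_ev_rts hBAS hm hi 0
  rw [ev_zero] at h1
  have h2 : (1 : ℝ) ≤ ‖((P.coeff 0 : ℤ) : ℂ)‖ := by
    rw [Complex.norm_intCast]
    exact_mod_cast Int.one_le_abs (coeff_zero_ne hm hi hX)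
  have h3 : ∏ a ∈ rts P, ‖(0 : ℂ) - a‖ = ∏ a ∈ rts P, ‖a‖ :=
    Finset.prod_congr rfl fun a _ => by simp
  rw [h3] at h1
  rw [← Real.log_prod (s := rts P) (f := fun a => ‖a‖)
    (fun a ha => norm_ne_zero_iff.mpr (root_ne_zero hm hi hX ha)), ← h1]
  exact Real.log_nonneg h2

theorem ca_mono {f g : ℂ → ℝ} (hf : Continuous f) (hg : Continuous g) (hf0 : ∀ z, 0 < f z)
    (hfg : ∀ z, f z ≤ g z) : ca (fun z => Real.log (f z)) ≤ ca (fun z => Real.log (g z)) := by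
  unfold ca
  have hg0 : ∀ z, 0 < g z := fun z => lt_of_lt_of_le (hf0 z) (hfg z)
  apply Real.circleAverage_mono
  · exact (hf.log (fun z => (hf0 z).ne')).continuousOn.circleIntegrable'
  · exact (hg.log (fun z => (hg0 z).ne')).continuousOn.circleIntegrable'
  · intro z _
    exact Real.log_le_log (hf0 z) (hfg z)

theorem sum_rs (hBASF : Stmt_BASF) {Ps : Finset ℤ[X]} (hF : Fam Ps) (f : ℂ → ℝ) :
    ∑ a ∈ rs Ps, f a = ∑ P ∈ Ps, ∑ a ∈ rts P, f a := by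
  obtain ⟨-, -, -, -, -, h⟩ := hBASF Ps hF
  unfold rs
  rw [Finset.sum_biUnion]
  intro P hP Q hQ hPQ
  exact h P hP Q hQ hPQ

/-- the logarithmic form of DSC -/
theorem dsc_log (hDSC : Stmt_DSC) {Ps : Finset ℤ[X]} (hF : Fam Ps) {P : ℤ[X]} (hP : P ∈ Ps) :
    0 ≤ ∑ a ∈ rts P, ∑ b ∈ (rs Ps).erase a, Real.log ‖a - b‖ := by
  have h := hDSC Ps hF P hP
  have h1 : ∀ a ∈ rts P, ∏ b ∈ (rs Ps).erase a, ‖a - b‖ ≠ 0 := by
    intro a _
    apply Finset.prod_ne_zero_iff.mpr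
    intro b hb
    rw [norm_ne_zero_iff, sub_ne_zero]
    exact (Finset.ne_of_mem_erase hb).symm
  have h2 := Real.log_nonneg h
  rw [Real.log_prod (hf := h1)] at h2
  refine h2.trans_eq (Finset.sum_congr rfl fun a _ => ?_)
  rw [Real.log_prod]
  intro b hb
  rw [norm_ne_zero_iff, sub_ne_zero]
  exact (Finset.ne_of_mem_erase hb).symm

end Pool.Agent.Work.MP_ce2d68_st.helper71
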