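import Mathlib
import Pool.Agent.Work.MP_ce2d68_st.Interface
import Pool.Agent.Work.MP_ce2d68_st_helper71.Base

set_option autoImplicit false

open Polynomial Filter Topology
open scoped ComplexConjugate

namespace Pool.Agent.Work.MP_ce2d68_st.helper71

open Pool.Agent.Work.MP_ce2d68_st

noncomputable def JJ (g : Finset ℂ) (k : ℕ) (a : ℂ) : Finset ℕ :=
  if a ∈ g then Finset.range k else {0}

noncomputable def pp (g : Finset ℂ) (φ : ℂ → ℂ → ℂ) (k : ℕ) (i : Σ _ : ℂ, ℕ) : ℂ :=
  if i.1 ∈ g then bp (φ i.1) k i.2 else i.1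

noncomputable def cc (g : Finset ℂ) (s t : ℝ) (i : Σ _ : ℂ, ℕ) : ℂ :=
  if i.1 ∈ g then (t : ℂ) else ((s * ‖i.1‖ : ℝ) : ℂ)

noncomputable def nn (g : Finset ℂ) (k : ℕ) (i : Σ _ : ℂ, ℕ) : ℕ := if i.1 ∈ g then 1 else k

noncomputable def tt (k : ℕ) (i : Σ _ : ℂ, ℕ) : Σ _ : ℂ, ℕ := ⟨conj i.1, (k - i.2) % k⟩

theorem pc_eq {g : Finset ℂ} {φ : ℂ → ℂ → ℂ} {k : ℕ} {s t : ℝ} (hs : 0 ≤ s) (ht : 0 ≤ t)
    (i : Σ _ : ℂ, ℕ) (z : ℂ) :
    pc (pp g φ k i) 0 (cc g s t i) z
      = if i.1 ∈ g then max ‖z - bp (φ i.1) k i.2‖ t else max ‖z - i.1‖ (s * ‖i.1‖) := by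
  unfold pc pp cc
  split_ifs with h
  · rw [zero_mul, zero_add, Complex.norm_real, Real.norm_of_nonneg ht]
  · rw [zero_mul, zero_add, Complex.norm_real,
      Real.norm_of_nonneg (mul_nonneg hs (norm_nonneg _))]

theorem prod_good {g : Finset ℂ} {φ : ℂ → ℂ → ℂ} {k : ℕ} {s t : ℝ} (hs : 0 ≤ s) (ht : 0 ≤ t)
    {a : ℂ} (ha : a ∈ g) (z : ℂ) :
    ∏ j ∈ JJ g k a, pc (pp g φ k ⟨a, j⟩) 0 (cc g s t ⟨a, j⟩) z ^ nn g k ⟨a, j⟩
      = ∏ j ∈ Finset.range k, max ‖z - bp (φ a) k j‖ t := by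
  unfold JJ
  rw [if_pos ha]
  refine Finset.prod_congr rfl fun j _ => ?_
  rw [pc_eq hs ht]
  unfold nn
  simp only [if_pos ha, pow_one]

theorem prod_bad {g : Finset ℂ} {φ : ℂ → ℂ → ℂ} {k : ℕ} {s t : ℝ} (hs : 0 ≤ s) (ht : 0 ≤ t)
    {a : ℂ} (ha : a ∉ g) (z : ℂ) :
    ∏ j ∈ JJ g k a, pc (pp g φ k ⟨a, j⟩) 0 (cc g s t ⟨a, j⟩) z ^ nn g k ⟨a, j⟩
      = (max ‖z - a‖ (s * ‖a‖)) ^ k := by
  unfold JJ
  rw [if_neg ha, Finset.prod_singleton, pc_eq hs ht]
  unfold nn
  simp only [if_neg ha]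

theorem exp_root_conj {k j : ℕ} (hk : 1 ≤ k) (hj : j < k) :
    Complex.exp (2 * Real.pi * Complex.I * (((k - j) % k : ℕ) : ℂ) / k)
      = conj (Complex.exp (2 * Real.pi * Complex.I * j / k)) := by
  have hk0 : (k : ℂ) ≠ 0 := by exact_mod_cast (by omega : k ≠ 0)
  rw [← Complex.exp_conj]
  have h1 : conj (2 * (Real.pi : ℂ) * Complex.I * j / k) = -(2 * Real.pi * Complex.I * j / k) := by
    simp only [map_div₀, map_mul, Complex.conj_ofReal, Complex.conj_I, Complex.conj_natCast]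
    have : (starRingEnd ℂ) 2 = 2 := by
      have := Complex.conj_natCast 2
      simpa using this
    rw [this]
    ring
  rw [h1]
  rcases Nat.eq_zero_or_pos j with h | h
  · subst h
    simp
  · rw [Nat.mod_eq_of_lt (by omega), Nat.cast_sub hj.le]
    have h2 : 2 * (Real.pi : ℂ) * Complex.I * ((k : ℂ) - j) / k
        = -(2 * Real.pi * Complex.I * j / k) + 2 * Real.pi * Complex.I := by
      field_simp
      ring
    rw [h2, Complex.exp_add, Complex.exp_two_pi_mul_I, mul_one]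

theorem norm_exp_root (k j : ℕ) : ‖Complex.exp (2 * Real.pi * Complex.I * j / k)‖ = 1 := by
  have : (2 * (Real.pi : ℂ) * Complex.I * j / k) = ((2 * Real.pi * j / k : ℝ) : ℂ) * Complex.I := by
    push_cast
    ring
  rw [this, Complex.norm_exp_ofReal_mul_I]

theorem one_not_root (hBAS : Stmt_BAS) {P : ℤ[X]} (hm : P.Monic) (hi : Irreducible P)
    (hM : 1 < MM P) : P.eval 1 ≠ 0 := by
  intro h
  have h1 : (X - C (1 : ℤ)) ∣ P := Polynomial.dvd_iff_isRoot.mpr h
  have h2 : Associated (X - C (1 : ℤ)) P := by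
    obtain ⟨Q, hQ⟩ := h1
    rcases hi.isUnit_or_isUnit hQ with h | h
    · exact absurd h (Polynomial.not_isUnit_X_sub_C 1)
    · obtain ⟨u, hu⟩ := h
      exact ⟨u, by rw [hu, hQ]⟩
  have h3 : P = X - C (1 : ℤ) := (Polynomial.eq_of_monic_of_associated (Polynomial.monic_X_sub_C 1) hm h2).symm
  obtain ⟨-, -, -, -, h4⟩ := hBAS P hm hi
  have h5 : rts P = {1} := by
    unfold rts cp
    rw [h3]
    rw [Polynomial.map_sub, Polynomial.map_X, Polynomial.map_C, map_one,
      Polynomial.roots_X_sub_C]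
    simp
  rw [h5, Finset.sum_singleton, norm_one] at h4
  have h6 : Real.posLog (1 : ℝ) = 0 := by simp [Real.posLog]
  rw [h6] at h4
  have := Real.log_pos hM
  linarith

theorem sum_log_one_sub_nonneg (hBAS : Stmt_BAS) {P : ℤ[X]} (hm : P.Monic) (hi : Irreducible P)
    (hM : 1 < MM P) : (∀ a ∈ rts P, (1 : ℂ) - a ≠ 0) ∧ 0 ≤ ∑ a ∈ rts P, Real.log ‖1 - a‖ := by
  have h0 := one_not_root hBAS hm hi hM
  have h1 := norm_ev_rts hBAS hm hi 1
  have hev : ev P 1 = ((P.eval 1 : ℤ) : ℂ) := by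
    unfold ev cp
    simp
  rw [hev] at h1
  have h2 : (1 : ℝ) ≤ ‖((P.eval 1 : ℤ) : ℂ)‖ := by
    rw [Complex.norm_intCast]
    exact_mod_cast Int.one_le_abs h0
  have hne : ∀ a ∈ rts P, (1 : ℂ) - a ≠ 0 := by
    intro a ha h
    have : ∏ a ∈ rts P, ‖(1 : ℂ) - a‖ = 0 := Finset.prod_eq_zero ha (by rw [h, norm_zero])
    rw [this] at h1
    linarith
  refine ⟨hne, ?_⟩
  rw [← Real.log_prod (s := rts P) (f := fun a => ‖1 - a‖)
    (fun a ha => norm_ne_zero_iff.mpr (hne a ha)), ← h1]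
  exact Real.log_nonneg h2

theorem stmt_ST1A (hBAS : Stmt_BAS) (hBASF : Stmt_BASF) (hDSC : Stmt_DSC) (hETP : Stmt_ETP)
    (hCOST : Stmt_COST) (hGEO2 : Stmt_GEO2) (hBIG : Stmt_BIG) (hADSC : Stmt_ADSC)
    (hRSUM : Stmt_RSUM) : Stmt_ST1A := by
  intro θ θ' c c' h0 hθ hθ' hc hcc
  obtain ⟨u₁, hu₁, hu₁', hgeo⟩ := hGEO2 θ θ' h0 hθ hθ'
  obtain ⟨u₂, hu₂, hu₂', hgeo'⟩ := hGEO2 ((θ + θ') / 2) θ' (by linarith) (by linarith) hθ'
  obtain ⟨b, hb, hb1, hb2⟩ := hBIG θ' (by linarith) hθ'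
  refine ⟨min u₁ u₂ / 2, b, by positivity, ?_, hb, ?_⟩
  · have := min_le_left u₁ u₂
    linarith
  intro κ₂ hκ₂
  obtain ⟨η, hη0, hη1, φ, hφ⟩ := hADSC θ ((θ + θ') / 2) c c' κ₂ h0 (by linarith) (by linarith)
    hc hcc hκ₂
  refine ⟨η, hη0, hη1, ?_⟩
  intro s t r hs hs' ht ht' hr hr'
  have hm1 : min u₁ u₂ ≤ u₁ := min_le_left _ _
  have hm2 : min u₁ u₂ ≤ u₂ := min_le_right _ _
  have hexp : 0 < Real.exp (-c') := Real.exp_pos _
  refine ⟨min s (t * Real.exp (-c')), lt_min hs (mul_pos ht hexp), ?_, ?_⟩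
  · have := min_le_left s (t * Real.exp (-c'))
    linarith
  set σ₀ : ℝ := min s (t * Real.exp (-c')) with hσ₀
  have hσ0 : 0 < σ₀ := lt_min hs (mul_pos ht hexp)
  have hσs : σ₀ ≤ s := min_le_left _ _
  have hσt : σ₀ ≤ t * Real.exp (-c') := min_le_right _ _
  have hσ1 : σ₀ < 1 := by linarith
  have hlσ : 0 < Real.log (1 / σ₀) := Real.log_pos (by rw [lt_div_iff₀ hσ0]; linarith)
  intro P hadm ℓ hℓ
  obtain ⟨hPm, hPi, hPX, hParg, hPM⟩ := hadm
  have hF : Fam {P} := by
    intro Q hQ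
    rw [Finset.mem_singleton] at hQ
    subst hQ
    exact ⟨hPm, hPi⟩
  have hpr : pr {P} = P := by unfold pr; rw [Finset.prod_singleton]
  have hrs : rs {P} = rts P := by unfold rs; rw [Finset.singleton_biUnion]
  have hdg : dg {P} = P.natDegree := by unfold dg; rw [Finset.sum_singleton]
  obtain ⟨hd0, -, hcard, hconj, hlogM⟩ := hBAS P hPm hPi
  set g : Finset ℂ := gd c c' P with hg
  have hgsub : g ⊆ rts P := Finset.filter_subset _ _
  have hgmem : ∀ a ∈ g, a ∈ rts P ∧ c < Real.log ‖a‖ ∧ Real.log ‖a‖ ≤ c' := by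
    intro a ha
    rw [hg] at ha
    unfold gd at ha
    rwa [Finset.mem_filter] at ha
  have hgconj : ∀ a, conj a ∈ g ↔ a ∈ g := by
    have h1 : ∀ a, a ∈ g → conj a ∈ g := by
      intro a ha
      rw [hg] at ha ⊢
      unfold gd at ha ⊢
      rw [Finset.mem_filter] at ha ⊢
      exact ⟨hconj a ha.1, by rw [Complex.norm_conj]; exact ha.2⟩
    intro a
    refine ⟨fun h => ?_, h1 a⟩
    have := h1 _ h
    rwa [Complex.conj_conj] at this
  have ha0 : ∀ a ∈ rts P, a ≠ 0 := fun a ha => root_ne_zero hPm hPi hPX ha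
  have hΦ : ∀ a ∈ g, AnalyticOnNhd ℂ (φ a) (Metric.closedBall 0 1) ∧ φ a 0 = a ∧
      (∀ w ∈ Metric.closedBall (0 : ℂ) 1, 1 / 2 ≤ ‖φ a w‖ ∧ |(φ a w).arg| ≤ (θ + θ') / 2 ∧
        φ (conj a) (conj w) = conj (φ a w)) ∧
      φ a ((1 / (1 + η) : ℝ) : ℂ) = 1 ∧
      ca (fun w => Real.posLog ‖φ a w‖) ≤ Real.log ‖a‖ + κ₂ * η := by
    intro a ha
    obtain ⟨h1, h2, h3⟩ := hgmem a ha
    exact hφ a (hParg a h1) h2.le h3
  have hK : ∀ a ∈ g, ∃ k₀ : ℕ, 1 ≤ k₀ ∧ ∀ k : ℕ, k₀ ≤ k →
      (∀ z : ℂ, ‖z - φ a 0‖ ^ k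
        ≤ Real.exp (ℓ * k) * ∏ j ∈ Finset.range k, max ‖z - bp (φ a) k j‖ t) ∧
      (∀ w₀ : ℂ, w₀ ≠ 0 → ‖w₀‖ < 1 → φ a w₀ = 1 → (‖1 - φ a 0‖ / ‖w₀‖) ^ k
        ≤ Real.exp (ℓ * k) * ∏ j ∈ Finset.range k, max ‖1 - bp (φ a) k j‖ t) ∧
      ∑ j ∈ Finset.range k, Real.posLog ‖bp (φ a) k j‖
        ≤ k * (ca (fun w => Real.posLog ‖φ a w‖) + ℓ) := by
    intro a ha
    exact hRSUM (φ a) (hΦ a ha).1 t ℓ ht hℓ
  choose! K₀ hK₀ using hK
  refine ⟨1 + ∑ a ∈ g, K₀ a, Nat.le_add_right _ _, ?_⟩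
  intro k e m hk he hm
  have hk1 : 1 ≤ k := le_trans (Nat.le_add_right _ _) hk
  have hkR : (1 : ℝ) ≤ (k : ℝ) := by exact_mod_cast hk1
  have hkK : ∀ a ∈ g, K₀ a ≤ k := by
    intro a ha
    have := Finset.single_le_sum (f := K₀) (fun _ _ => Nat.zero_le _) ha
    omega
  -- the three facts on the boundary points
  have F1 : ∀ a ∈ g, ∀ z : ℂ, ‖z - a‖ ^ k
      ≤ Real.exp (ℓ * k) * ∏ j ∈ Finset.range k, max ‖z - bp (φ a) k j‖ t := by
    intro a ha z
    have := ((hK₀ a ha).2 k (hkK a ha)).1 z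
    rwa [(hΦ a ha).2.1] at this
  have F2 : ∀ a ∈ g, (‖1 - a‖ * (1 + η)) ^ k
      ≤ Real.exp (ℓ * k) * ∏ j ∈ Finset.range k, max ‖1 - bp (φ a) k j‖ t := by
    intro a ha
    have hw : ‖((1 / (1 + η) : ℝ) : ℂ)‖ = 1 / (1 + η) := by
      rw [Complex.norm_real, Real.norm_of_nonneg (by positivity)]
    have h1 := ((hK₀ a ha).2 k (hkK a ha)).2.1 ((1 / (1 + η) : ℝ) : ℂ)
      (by
        rw [Ne, Complex.ofReal_eq_zero]
        positivity)
      (by
        rw [hw, div_lt_one (by linarith)]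
        linarith)
      (hΦ a ha).2.2.2.1
    rw [(hΦ a ha).2.1, hw, div_div_eq_mul_div, div_one] at h1
    exact h1
  have F3 : ∀ a ∈ g, ∑ j ∈ Finset.range k, Real.posLog ‖bp (φ a) k j‖
        ≤ k * (Real.log ‖a‖ + κ₂ * η + ℓ) := by
    intro a ha
    have h1 := ((hK₀ a ha).2 k (hkK a ha)).2.2
    have h2 := (hΦ a ha).2.2.2.2
    refine h1.trans ?_
    apply mul_le_mul_of_nonneg_left _ (by linarith)
    linarith
  have F4 : ∀ a ∈ g, ∀ j, 1 / 2 ≤ ‖bp (φ a) k j‖ ∧ |(bp (φ a) k j).arg| ≤ (θ + θ') / 2 := by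
    intro a ha j
    have hw : Complex.exp (2 * Real.pi * Complex.I * j / k) ∈ Metric.closedBall (0 : ℂ) 1 := by
      rw [mem_closedBall_zero_iff, norm_exp_root]
    obtain ⟨h1, h2, -⟩ := (hΦ a ha).2.2.1 _ hw
    exact ⟨h1, h2⟩
  -- the index set
  set S : Finset (Σ _ : ℂ, ℕ) := (rts P).sigma (JJ g k) with hS
  have hmemS : ∀ i : (Σ _ : ℂ, ℕ), i ∈ S → i.1 ∈ rts P ∧ i.2 < k ∧ (i.1 ∉ g → i.2 = 0) := by
    intro i hi
    rw [hS, Finset.mem_sigma] at hi
    obtain ⟨h1, h2⟩ := hi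
    unfold JJ at h2
    refine ⟨h1, ?_, ?_⟩
    · split_ifs at h2 with h
      · exact Finset.mem_range.mp h2
      · rw [Finset.mem_singleton] at h2
        omega
    · intro h
      rw [if_neg h, Finset.mem_singleton] at h2
      exact h2
  have hs0 : 0 ≤ s := hs.le
  have ht0 : 0 ≤ t := ht.le
  have hpcpos : ∀ i ∈ S, ∀ z, 0 < pc (pp g φ k i) 0 (cc g s t i) z := by
    intro i hi z
    rw [pc_eq hs0 ht0]
    split_ifs with h
    · exact lt_max_of_lt_right ht
    · exact lt_max_of_lt_right (mul_pos hs (norm_pos_iff.mpr (ha0 _ (hmemS i hi).1)))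
  have hprodS : ∀ z : ℂ, ∏ i ∈ S, pc (pp g φ k i) 0 (cc g s t i) z ^ nn g k i
      = ∏ a ∈ rts P, ∏ j ∈ JJ g k a, pc (pp g φ k ⟨a, j⟩) 0 (cc g s t ⟨a, j⟩) z ^ nn g k ⟨a, j⟩ := by
    intro z
    rw [hS, Finset.prod_sigma]
  -- the product attached to a root
  set G : ℂ → ℂ → ℝ := fun a z =>
    ∏ j ∈ JJ g k a, pc (pp g φ k ⟨a, j⟩) 0 (cc g s t ⟨a, j⟩) z ^ nn g k ⟨a, j⟩ with hG
  have hGpos : ∀ a ∈ rts P, ∀ z, 0 < G a z := by
    intro a ha z
    apply Finset.prod_pos
    intro j hj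
    exact pow_pos (hpcpos ⟨a, j⟩ (by rw [hS, Finset.mem_sigma]; exact ⟨ha, hj⟩) z) _
  have hG1 : ∀ a ∈ rts P, ∀ z : ℂ,
      ‖z - a‖ ^ k ≤ Real.exp (if a ∈ g then ℓ * k else 0) * G a z := by
    intro a ha z
    by_cases h : a ∈ g
    · rw [if_pos h, hG]
      simp only
      rw [prod_good hs0 ht0 h]
      exact F1 a h z
    · rw [if_neg h, Real.exp_zero, one_mul, hG]
      simp only
      rw [prod_bad hs0 ht0 h]
      exact pow_le_pow_left₀ (norm_nonneg _) (le_max_left _ _) k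
  have hG2 : ∀ a ∈ rts P, k * (Real.log σ₀ + Real.log ‖a‖) ≤ Real.log (G a a) := by
    intro a ha
    have hna : 0 < ‖a‖ := norm_pos_iff.mpr (ha0 a ha)
    rw [← Real.log_mul hσ0.ne' hna.ne', ← Real.log_pow]
    apply Real.log_le_log (by positivity)
    by_cases h : a ∈ g
    · rw [hG]
      simp only
      rw [prod_good hs0 ht0 h]
      have h1 : σ₀ * ‖a‖ ≤ t := by
        have h2 : ‖a‖ ≤ Real.exp c' := by
          rw [← Real.log_le_iff_le_exp hna]
          exact (hgmem a h).2.2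
        calc σ₀ * ‖a‖ ≤ (t * Real.exp (-c')) * Real.exp c' :=
              mul_le_mul hσt h2 hna.le (by positivity)
          _ = t := by rw [mul_assoc, ← Real.exp_add]; simp
      calc (σ₀ * ‖a‖) ^ k = ∏ j ∈ Finset.range k, (σ₀ * ‖a‖) := by
            rw [Finset.prod_const, Finset.card_range]
        _ ≤ _ := by
            apply Finset.prod_le_prod
            · intro j _; positivity
            · intro j _; exact h1.trans (le_max_right _ _)
    · rw [hG]
      simp only
      rw [prod_bad hs0 ht0 h]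
      apply pow_le_pow_left₀ (by positivity)
      apply le_max_of_le_right
      exact mul_le_mul_of_nonneg_right hσs hna.le
  obtain ⟨hone, hone'⟩ := sum_log_one_sub_nonneg hBAS hPm hPi hPM
  have hG3 : ∀ a ∈ rts P, k * Real.log ‖1 - a‖ + (if a ∈ g then k * (Real.log (1 + η) - ℓ) else 0)
      ≤ Real.log (G a 1) := by
    intro a ha
    have hna : 0 < ‖1 - a‖ := norm_pos_iff.mpr (hone a ha)
    by_cases h : a ∈ g
    · rw [if_pos h]
      have h1 := F2 a h
      have h2 : G a 1 = ∏ j ∈ Finset.range k, max ‖1 - bp (φ a) k j‖ t := by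
        rw [hG]
        simp only
        rw [prod_good hs0 ht0 h]
      rw [← h2] at h1
      have h3 := Real.log_le_log (by positivity) h1
      rw [Real.log_pow, Real.log_mul hna.ne' (by positivity),
        Real.log_mul (Real.exp_pos _).ne' (hGpos a ha 1).ne', Real.log_exp] at h3
      linarith
    · rw [if_neg h, add_zero, ← Real.log_pow, hG]
      simp only
      rw [prod_bad hs0 ht0 h]
      apply Real.log_le_log (by positivity)
      exact pow_le_pow_left₀ (norm_nonneg _) (le_max_left _ _) k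
  have hsumind : ∀ x : ℝ, ∑ a ∈ rts P, (if a ∈ g then x else 0) = g.card * x := by
    intro x
    rw [← Finset.sum_filter, Finset.filter_mem_eq_inter, Finset.inter_eq_right.mpr hgsub,
      Finset.sum_const, nsmul_eq_mul]
  have hgd : (g.card : ℝ) ≤ P.natDegree := by
    rw [← hcard]
    exact_mod_cast Finset.card_le_card hgsub
  have hdR : (0 : ℝ) < P.natDegree := by exact_mod_cast hd0
  have hsumn : ∑ i ∈ S, nn g k i = k * P.natDegree := by
    rw [hS, Finset.sum_sigma]
    have h1 : ∀ a ∈ rts P, ∑ j ∈ JJ g k a, nn g k ⟨a, j⟩ = k := by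
      intro a ha
      unfold JJ nn
      by_cases h : a ∈ g
      · simp only [if_pos h, Finset.sum_const, Finset.card_range, smul_eq_mul, mul_one]
      · simp only [if_neg h, Finset.sum_singleton]
    rw [Finset.sum_congr rfl h1, Finset.sum_const, hcard, smul_eq_mul, mul_comm]
  have hbb : ∀ a ∈ g, ∀ j, 0 < ‖bp (φ a) k j‖ := fun a ha j => by
    have := (F4 a ha j).1
    linarith
  have key := hETP θ' {P} (Σ _ : ℂ, ℕ) S (pp g φ k) (fun _ => 0) (cc g s t) (nn g k) (tt k)
    {0} (fun _ => b) (fun _ => 10) (fun _ => m) k e r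
    (2 * b + 2 + ∑ i ∈ S, (‖pp g φ k i‖ + ‖cc g s t i‖)) (ℓ * k * g.card)
    (k * (Real.log (1 / σ₀) + ℓ * P.natDegree)) (k * g.card * (Real.log (1 + η) - ℓ))
    (m * Real.log 10)
    (fun i => if i.1 ∈ g then Real.posLog ‖bp (φ i.1) k i.2‖ + 4 * t
      else Real.posLog ‖i.1‖ + 2 * s)
    (fun _ => Real.log (2 * b)) (2 * r)
    hF (Finset.singleton_nonempty P)
    (by
      intro i hi
      obtain ⟨q1, q2, q3⟩ := hmemS i hi
      obtain ⟨a, j⟩ := i
      simp only at q1 q2 q3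
      refine ⟨?_, ?_, ?_, by simp, ?_, ?_⟩
      · rw [hS, Finset.mem_sigma]
        unfold tt JJ
        simp only
        refine ⟨hconj a q1, ?_⟩
        by_cases h : a ∈ g
        · rw [if_pos ((hgconj a).mpr h), Finset.mem_range]
          exact Nat.mod_lt _ (by omega)
        · rw [if_neg (fun h' => h ((hgconj a).mp h')), Finset.mem_singleton, q3 h, Nat.sub_zero,
            Nat.mod_self]
      · unfold tt
        simp only [Complex.conj_conj, Sigma.mk.injEq, heq_eq_eq, true_and]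
        rcases Nat.eq_zero_or_pos j with h | h
        · subst h
          simp
        · rw [Nat.mod_eq_of_lt (show k - j < k by omega), show k - (k - j) = j by omega,
            Nat.mod_eq_of_lt q2]
      · unfold pp tt
        simp only
        by_cases h : a ∈ g
        · rw [if_pos ((hgconj a).mpr h), if_pos h]
          unfold bp
          rw [exp_root_conj hk1 q2]
          have hw : Complex.exp (2 * Real.pi * Complex.I * j / k) ∈ Metric.closedBall (0 : ℂ) 1 := by
            rw [mem_closedBall_zero_iff, norm_exp_root]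
          exact ((hΦ a h).2.2.1 _ hw).2.2
        · rw [if_neg (fun h' => h ((hgconj a).mp h')), if_neg h]
      · unfold cc tt
        simp only
        by_cases h : a ∈ g
        · rw [if_pos ((hgconj a).mpr h), if_pos h, Complex.conj_ofReal]
        · rw [if_neg (fun h' => h ((hgconj a).mp h')), if_neg h, Complex.conj_ofReal,
            Complex.norm_conj]
      · unfold nn tt
        simp only
        by_cases h : a ∈ g
        · rw [if_pos ((hgconj a).mpr h), if_pos h]
        · rw [if_neg (fun h' => h ((hgconj a).mp h')), if_neg h])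
    (by intro i _; simp)
    hpcpos
    (by
      intro i hi z hz
      rw [zero_mul, zero_add] at hz
      obtain ⟨q1, q2, q3⟩ := hmemS i hi
      constructor
      · unfold pp cc at hz
        by_cases h : i.1 ∈ g
        · rw [if_pos h, if_pos h, Complex.norm_real, Real.norm_of_nonneg ht0] at hz
          obtain ⟨q4, q5⟩ := F4 i.1 h i.2
          refine hgeo' (bp (φ i.1) k i.2) z (norm_pos_iff.mp (by linarith)) q5 (hz.trans ?_)
          nlinarith
        · rw [if_neg h, if_neg h, Complex.norm_real,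
            Real.norm_of_nonneg (mul_nonneg hs0 (norm_nonneg _))] at hz
          refine hgeo i.1 z (ha0 _ q1) (hParg _ q1) (hz.trans ?_)
          apply mul_le_mul_of_nonneg_right _ (norm_nonneg _)
          linarith
      · have h1 : ‖z‖ ≤ ‖pp g φ k i‖ + ‖cc g s t i‖ := by
          have := norm_add_le (z - pp g φ k i) (pp g φ k i)
          rw [sub_add_cancel] at this
          linarith
        have h2 : ‖pp g φ k i‖ + ‖cc g s t i‖ ≤ ∑ i ∈ S, (‖pp g φ k i‖ + ‖cc g s t i‖) :=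
          Finset.single_le_sum (f := fun i => ‖pp g φ k i‖ + ‖cc g s t i‖)
            (fun i _ => by positivity) hi
        linarith)
    (by intro j _; exact le_refl _)
    (by
      intro j _ z hz
      obtain ⟨g1, g2⟩ := hb1 z hz
      refine ⟨g1, ?_⟩
      have : 0 ≤ ∑ i ∈ S, (‖pp g φ k i‖ + ‖cc g s t i‖) := Finset.sum_nonneg fun i _ => by positivity
      linarith)
    hr (by linarith)
    (by
      intro _ z hz
      refine ⟨hgeo 1 z one_ne_zero (by simp [h0.le]) ?_, ?_⟩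
      · rw [norm_one, mul_one]
        linarith
      · have h1 := norm_add_le (z - 1) 1
        rw [sub_add_cancel, norm_one] at h1
        have : 0 ≤ ∑ i ∈ S, (‖pp g φ k i‖ + ‖cc g s t i‖) :=
          Finset.sum_nonneg fun i _ => by positivity
        linarith)
    hk1
    (by rw [hsumn, hdg])
    (by
      rw [hsumn, hdg]
      exact Nat.le_add_right _ _)
    (by
      intro z _
      rw [hpr, norm_ev_rts hBAS hPm hPi, ← Finset.prod_pow, hprodS]
      calc ∏ a ∈ rts P, ‖z - a‖ ^ k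
          ≤ ∏ a ∈ rts P, (Real.exp (if a ∈ g then ℓ * k else 0) * G a z) := by
            apply Finset.prod_le_prod
            · intro a _; positivity
            · intro a ha; exact hG1 a ha z
        _ = Real.exp (ℓ * k * g.card) * ∏ a ∈ rts P, G a z := by
            rw [Finset.prod_mul_distrib, ← Real.exp_sum, hsumind]
            congr 2
            ring)
    (by
      intro z _
      rw [Finset.prod_singleton, mul_comm, Real.exp_mul, Real.exp_log (by norm_num),
        Real.rpow_natCast]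
      exact pow_le_pow_left₀ (by norm_num) (le_max_right _ _) m)
    (by positivity) (by positivity)
    (by
      intro Q hQ
      rw [Finset.mem_singleton] at hQ
      subst hQ
      have hterm : ∀ a' ∈ rts Q,
          k * ∑ a ∈ (rts Q).erase a', Real.log ‖a' - a‖ - ℓ * k * g.card
            + k * (Real.log σ₀ + Real.log ‖a'‖)
          ≤ Real.log (∏ i ∈ S, pc (pp g φ k i) 0 (cc g s t i) a' ^ nn g k i) := by
        intro a' ha'
        rw [hprodS]
        change _ ≤ Real.log (∏ a ∈ rts Q, G a a')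
        rw [Real.log_prod (hf := fun a ha => (hGpos a ha a').ne'),
          ← Finset.add_sum_erase (rts Q) (fun a => Real.log (G a a')) ha']
        have e2 : ∀ a ∈ (rts Q).erase a', k * Real.log ‖a' - a‖ - (if a ∈ g then ℓ * k else 0)
            ≤ Real.log (G a a') := by
          intro a ha
          have hne' : 0 < ‖a' - a‖ :=
            norm_pos_iff.mpr (sub_ne_zero.mpr (Finset.ne_of_mem_erase ha).symm)
          have h1 := Real.log_le_log (by positivity) (hG1 a (Finset.mem_of_mem_erase ha) a')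
          rw [Real.log_pow, Real.log_mul (Real.exp_pos _).ne'
            (hGpos a (Finset.mem_of_mem_erase ha) a').ne', Real.log_exp] at h1
          linarith
        have e3 := Finset.sum_le_sum e2
        rw [Finset.sum_sub_distrib, ← Finset.mul_sum] at e3
        have e4 : ∑ a ∈ (rts Q).erase a', (if a ∈ g then ℓ * k else 0) ≤ g.card * (ℓ * k) := by
          rw [← hsumind (ℓ * k)]
          apply Finset.sum_le_sum_of_subset_of_nonneg (Finset.erase_subset _ _)
          intro a _ _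
          split_ifs
          · positivity
          · exact le_refl _
        have e5 := hG2 a' ha'
        linarith
      have h1 := Finset.sum_le_sum hterm
      have hB : ∑ a' ∈ rts Q, k * (Real.log σ₀ + Real.log ‖a'‖)
          = k * (Q.natDegree * Real.log σ₀) + k * ∑ a ∈ rts Q, Real.log ‖a‖ := by
        rw [← Finset.mul_sum, Finset.sum_add_distrib, Finset.sum_const, nsmul_eq_mul, hcard,
          mul_add]
      have hA : ∑ a' ∈ rts Q, (ℓ * k * (g.card : ℝ)) = Q.natDegree * (ℓ * k * g.card) := by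
        rw [Finset.sum_const, nsmul_eq_mul, hcard]
      have hD : ∑ a' ∈ rts Q, (k : ℝ) * ∑ a ∈ (rts Q).erase a', Real.log ‖a' - a‖
          = k * ∑ a ∈ rts Q, ∑ b ∈ (rts Q).erase a, Real.log ‖a - b‖ := by
        rw [← Finset.mul_sum]
      rw [Finset.sum_add_distrib, Finset.sum_sub_distrib, hA, hB, hD] at h1
      have h2 := dsc_log hDSC hF (Finset.mem_singleton_self Q)
      rw [hrs] at h2
      have h3 := sum_log_nonneg hBAS hPm hPi hPX
      have h4 : Real.log (1 / σ₀) = -Real.log σ₀ := by rw [one_div, Real.log_inv]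
      have h5 : (Q.natDegree : ℝ) * (ℓ * k * g.card) ≤ Q.natDegree * (ℓ * k * Q.natDegree) := by
        apply mul_le_mul_of_nonneg_left _ hdR.le
        apply mul_le_mul_of_nonneg_left hgd (by positivity)
      have h6 : 0 ≤ (k : ℝ) * ∑ a ∈ rts Q, ∑ b ∈ (rts Q).erase a, Real.log ‖a - b‖ :=
        mul_nonneg (by linarith) h2
      have h7 : 0 ≤ (k : ℝ) * ∑ a ∈ rts Q, Real.log ‖a‖ := mul_nonneg (by linarith) h3
      rw [h4]
      refine le_trans ?_ h1
      nlinarith)
    (by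
      have : ℓ * k * g.card ≤ k * (Real.log (1 / σ₀) + ℓ * P.natDegree) := by
        have h1 : ℓ * k * (g.card : ℝ) ≤ ℓ * k * P.natDegree :=
          mul_le_mul_of_nonneg_left hgd (by positivity)
        have h2 : 0 ≤ (k : ℝ) * Real.log (1 / σ₀) := by positivity
        nlinarith
      rw [max_eq_left this]
      exact hm)
    (by
      intro _
      constructor
      · rw [hprodS]
        change _ ≤ Real.log (∏ a ∈ rts P, G a 1)
        rw [Real.log_prod (hf := fun a ha => (hGpos a ha 1).ne')]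
        have h1 := Finset.sum_le_sum hG3
        rw [Finset.sum_add_distrib, ← Finset.mul_sum, hsumind] at h1
        have h2 : 0 ≤ (k : ℝ) * ∑ a ∈ rts P, Real.log ‖1 - a‖ := mul_nonneg (by linarith) hone'
        linarith
      · have h1 : 0 ≤ (k : ℝ) * (Real.log (1 / σ₀) + ℓ * P.natDegree) := by positivity
        linarith)
    (by
      intro i hi
      obtain ⟨q1, q2, q3⟩ := hmemS i hi
      have hfun : (fun z => Real.log (pc (pp g φ k i) 0 (cc g s t i) z))
          = fun z => Real.log (if i.1 ∈ g then max ‖z - bp (φ i.1) k i.2‖ t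
              else max ‖z - i.1‖ (s * ‖i.1‖)) := by
        funext z
        rw [pc_eq hs0 ht0]
      rw [hfun]
      by_cases h : i.1 ∈ g
      · simp only [if_pos h]
        obtain ⟨q4, -⟩ := F4 i.1 h i.2
        have h1 := hCOST (bp (φ i.1) k i.2) t ht (by linarith)
        have h2 : 2 * t / ‖bp (φ i.1) k i.2‖ ≤ 4 * t := by
          rw [div_le_iff₀ (by linarith)]
          nlinarith
        linarith
      · simp only [if_neg h]
        have hna : 0 < ‖i.1‖ := norm_pos_iff.mpr (ha0 _ q1)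
        have h1 := hCOST i.1 (s * ‖i.1‖) (by positivity) (by nlinarith)
        have h2 : 2 * (s * ‖i.1‖) / ‖i.1‖ = 2 * s := by
          field_simp
        linarith)
    (by intro j _; exact hb2)
    (by
      intro _
      have h1 := hCOST 1 r hr (by rw [norm_one]; linarith)
      rw [norm_one, div_one] at h1
      have h2 : Real.posLog (1 : ℝ) = 0 := by simp [Real.posLog]
      linarith)
  refine ach_mono ?_ key
  have hden : (((∑ i ∈ S, nn g k i) + ∑ j ∈ ({0} : Finset ℕ), m + e : ℕ) : ℝ)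
      = ((k * P.natDegree + e + m : ℕ) : ℝ) := by
    rw [hsumn, Finset.sum_singleton]
    push_cast
    ring
  rw [hden]
  apply div_le_div_of_nonneg_right _ (Nat.cast_nonneg _)
  have hmain : ∑ i ∈ S, (nn g k i : ℝ) * (if i.1 ∈ g then Real.posLog ‖bp (φ i.1) k i.2‖ + 4 * t
      else Real.posLog ‖i.1‖ + 2 * s)
      ≤ k * (P.natDegree * lv P + g.card * (κ₂ * η + ℓ + 4 * t) + 2 * s * P.natDegree) := by
    rw [hS, Finset.sum_sigma]
    have h1 : ∀ a ∈ rts P, ∑ j ∈ JJ g k a, (nn g k ⟨a, j⟩ : ℝ)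
        * (if a ∈ g then Real.posLog ‖bp (φ a) k j‖ + 4 * t else Real.posLog ‖a‖ + 2 * s)
        ≤ k * (Real.posLog ‖a‖ + 2 * s) + (if a ∈ g then k * (κ₂ * η + ℓ + 4 * t) else 0) := by
      intro a ha
      unfold JJ nn
      by_cases h : a ∈ g
      · simp only [if_pos h, Nat.cast_one, one_mul]
        rw [Finset.sum_add_distrib, Finset.sum_const, Finset.card_range, nsmul_eq_mul]
        have h2 := F3 a h
        have h3 : Real.log ‖a‖ ≤ Real.posLog ‖a‖ := by
          unfold Real.posLog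
          exact le_max_right _ _
        have h4 : (k : ℝ) * Real.log ‖a‖ ≤ k * Real.posLog ‖a‖ :=
          mul_le_mul_of_nonneg_left h3 (by linarith)
        have h5 : 0 ≤ (k : ℝ) * s := by positivity
        nlinarith
      · simp only [if_neg h, Finset.sum_singleton, add_zero]
        exact le_refl _
    refine (Finset.sum_le_sum h1).trans ?_
    rw [Finset.sum_add_distrib, hsumind, ← Finset.mul_sum, Finset.sum_add_distrib, ← hlogM,
      Finset.sum_const, hcard, nsmul_eq_mul]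
    have h6 : P.natDegree * lv P = Real.log (MM P) := by
      unfold lv
      rw [mul_div_cancel₀ _ hdR.ne']
    rw [h6]
    apply le_of_eq
    ring
  rw [Finset.sum_singleton]
  linarith

end Pool.Agent.Work.MP_ce2d68_st.helper71
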