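import Mathlib
import Pool.Agent.Work.MP_ce2d68_st.Interface
import Pool.Agent.Work.MP_ce2d68_st_helper71.Base

set_option autoImplicit false

open Polynomial Filter Topology
open scoped ComplexConjugate

namespace Pool.Agent.Work.MP_ce2d68_st.helper71

open Pool.Agent.Work.MP_ce2d68_st

theorem dir_conj (a : ℂ) : dir (conj a) = conj (dir a) := by
  unfold dir
  simp only [Complex.conj_im]
  rcases lt_trichotomy a.im 0 with h | h | h
  · rw [if_pos (by linarith), if_neg (by linarith), if_pos h]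
    simp
  · rw [if_neg (by linarith), if_neg (by linarith), if_neg (by linarith), if_neg (by linarith)]
    simp
  · rw [if_neg (by linarith), if_pos (by linarith), if_pos h]
    simp

theorem norm_dir (a : ℂ) : ‖dir a‖ = 1 := by
  unfold dir
  split_ifs <;> simp

theorem ast_conj (s ρ : ℝ) (a : ℂ) : ast s ρ (conj a) = conj (ast s ρ a) := by
  unfold ast
  rw [dir_conj]
  simp only [map_mul, map_sub, map_one, Complex.conj_ofReal]

theorem norm_sub_ast {s ρ : ℝ} (hs : 0 < s) (hρ0 : 0 < ρ) (hρ : ρ < 1) (a : ℂ) :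
    ‖a - ast s ρ a‖ = ((1 - ρ ^ 2) * s / ρ) * ‖a‖ := by
  have hk : 0 < (1 - ρ ^ 2) * s / ρ := by
    apply div_pos (mul_pos (by nlinarith) hs) hρ0
  have : a - ast s ρ a = ((((1 - ρ ^ 2) * s / ρ : ℝ)) : ℂ) * (dir a * a) := by
    unfold ast; ring
  rw [this, norm_mul, norm_mul, norm_dir, Complex.norm_real, Real.norm_of_nonneg hk.le, one_mul]

theorem continuous_pc (p b c : ℂ) : Continuous (fun z => pc p b c z) := by
  unfold pc
  fun_prop

theorem continuous_max_disc (p : ℂ) (t : ℝ) : Continuous (fun z : ℂ => max ‖z - p‖ t) := by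
  fun_prop

/-- cost of a piece -/
theorem cost_piece (hCOST : Stmt_COST) {s ρ : ℝ} {a : ℂ} (hs : 0 < s) (hs1 : s ≤ 1 / 16)
    (hρ0 : 1 / 2 ≤ ρ) (hρ : ρ < 1) (ha : a ≠ 0)
    (hgeo : ∀ z : ℂ, ‖z - ast s ρ a‖ ≤ ρ * ‖z - a‖ → ρ * ‖z - a‖ ≤ 2 * s * ‖a‖) :
    ca (fun z => Real.log (pc (ast s ρ a) (ρ : ℂ) (-((ρ : ℂ) * a)) z))
      ≤ Real.posLog ‖a‖ + 10 * s := by
  have hna : 0 < ‖a‖ := norm_pos_iff.mpr ha
  have hρp : 0 < ρ := by linarith
  set κ : ℝ := (1 - ρ ^ 2) * s / ρ with hκ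
  have hκ0 : 0 < κ := div_pos (mul_pos (by nlinarith) hs) hρp
  have hκ1 : κ ≤ 3 / 2 * s := by
    rw [hκ, div_le_iff₀ hρp]
    have e1 : 1 - ρ ^ 2 ≤ 3 / 2 * ρ := by nlinarith
    nlinarith [mul_le_mul_of_nonneg_right e1 hs.le]
  have hsub : ‖a - ast s ρ a‖ = κ * ‖a‖ := norm_sub_ast hs hρp hρ a
  have h1 : ‖ast s ρ a‖ ≤ (1 + κ) * ‖a‖ := by
    have h3 := norm_sub_le a (a - ast s ρ a)
    rw [sub_sub_cancel, hsub] at h3
    linarith
  have h2 : (1 - κ) * ‖a‖ ≤ ‖ast s ρ a‖ := by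
    have h3 := norm_add_le (ast s ρ a) (a - ast s ρ a)
    rw [add_sub_cancel, hsub] at h3
    linarith
  have h3 : 29 / 32 * ‖a‖ ≤ ‖ast s ρ a‖ := by
    refine le_trans ?_ h2
    apply mul_le_mul_of_nonneg_right _ hna.le
    linarith
  have hastpos : 0 < ‖ast s ρ a‖ := by nlinarith
  have hform : ∀ z : ℂ, ‖(ρ : ℂ) * z + -((ρ : ℂ) * a)‖ = ρ * ‖z - a‖ := by
    intro z
    have : (ρ : ℂ) * z + -((ρ : ℂ) * a) = (ρ : ℂ) * (z - a) := by ring
    rw [this, norm_mul, Complex.norm_real, Real.norm_of_nonneg hρp.le]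
  have hpos : ∀ z, 0 < pc (ast s ρ a) (ρ : ℂ) (-((ρ : ℂ) * a)) z := by
    intro z
    unfold pc
    rw [hform]
    by_cases hz : z = a
    · subst hz
      apply lt_max_of_lt_left
      rw [hsub]
      positivity
    · apply lt_max_of_lt_right
      have : 0 < ‖z - a‖ := norm_pos_iff.mpr (sub_ne_zero.mpr hz)
      positivity
  have hle : ∀ z, pc (ast s ρ a) (ρ : ℂ) (-((ρ : ℂ) * a)) z ≤ max ‖z - ast s ρ a‖ (2 * s * ‖a‖) := by
    intro z
    unfold pc
    rw [hform]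
    rcases le_total (‖z - ast s ρ a‖) (ρ * ‖z - a‖) with h | h
    · exact max_le (le_max_left _ _) ((hgeo z h).trans (le_max_right _ _))
    · exact max_le (le_max_left _ _) (h.trans (le_max_left _ _))
  have hmono := ca_mono (continuous_pc _ _ _) (continuous_max_disc (ast s ρ a) (2 * s * ‖a‖))
    hpos hle
  have hc := hCOST (ast s ρ a) (2 * s * ‖a‖) (by positivity) (by nlinarith)
  have hlog : Real.posLog ‖ast s ρ a‖ ≤ Real.posLog ‖a‖ + κ := by
    have e1 : Real.posLog ‖ast s ρ a‖ ≤ Real.posLog ((1 + κ) * ‖a‖) :=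
      Real.posLog_le_posLog (norm_nonneg _) h1
    have e2 : Real.posLog ((1 + κ) * ‖a‖) ≤ Real.posLog (1 + κ) + Real.posLog ‖a‖ :=
      Real.posLog_mul
    have e3 : Real.posLog (1 + κ) ≤ κ := by
      rw [Real.posLog_eq_log (by rw [abs_of_pos (by linarith)]; linarith)]
      have := Real.log_le_sub_one_of_pos (show (0:ℝ) < 1 + κ by linarith)
      linarith
    linarith
  have hfr : 2 * (2 * s * ‖a‖) / ‖ast s ρ a‖ ≤ 5 * s := by
    rw [div_le_iff₀ hastpos]
    nlinarith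
  linarith

theorem stmt_TR0 (hBAS : Stmt_BAS) (hBASF : Stmt_BASF) (hDSC : Stmt_DSC) (hETP : Stmt_ETP)
    (hCOST : Stmt_COST) (hGEO : Stmt_GEO) (hBIG : Stmt_BIG) : Stmt_TR0 := by
  intro θ₀ h0 hπ
  obtain ⟨s₁, hs₁, hs₁', hgeo⟩ := hGEO θ₀ h0 hπ
  obtain ⟨b, hb, hb1, hb2⟩ := hBIG θ₀ h0 hπ
  have hL : 0 < Real.log (2 * b) := Real.log_pos (by linarith)
  refine ⟨2 * Real.log (2 * b), s₁, by positivity, hs₁, hs₁', ?_⟩
  intro s ρ θ θ' hs hss hρ0 hρ1 hθ₀ hθπ hθ'π hθ' Ps hne hadm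
  have hF : Fam Ps := fun P hP => ⟨(hadm P hP).1, (hadm P hP).2.1⟩
  obtain ⟨-, -, -, hcard, hconj, hdisj⟩ := hBASF Ps hF
  have hρp : 0 < ρ := by linarith
  have hmem : ∀ a ∈ rs Ps, ∃ P ∈ Ps, a ∈ rts P := by
    intro a ha
    unfold rs at ha
    simpa using ha
  have ha0 : ∀ a ∈ rs Ps, a ≠ 0 := by
    intro a ha
    obtain ⟨P, hP, haP⟩ := hmem a ha
    obtain ⟨q1, q2, q3, -⟩ := hadm P hP
    exact root_ne_zero q1 q2 q3 haP
  have harg : ∀ a ∈ rs Ps, |a.arg| ≤ θ' := by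
    intro a ha
    obtain ⟨P, hP, haP⟩ := hmem a ha
    exact (hadm P hP).2.2.2.1 a haP
  have hG : ∀ a ∈ rs Ps, ∀ z : ℂ, ‖z - ast s ρ a‖ ≤ ρ * ‖z - a‖ →
      |z.arg| ≤ θ ∧ ‖z‖ ≤ 2 * ‖a‖ ∧ ρ * ‖z - a‖ ≤ 2 * s * ‖a‖ := fun a ha z hz =>
    hgeo s ρ θ θ' hs hss hρ0 hρ1 hθ₀ hθ'π hθ' a (ha0 a ha) (harg a ha) z hz
  set κ : ℝ := (1 - ρ ^ 2) * s / ρ with hκ
  have hκ0 : 0 < κ := div_pos (mul_pos (by nlinarith) hs) hρp
  have hκ1 : s * (1 - ρ) ≤ κ := by
    rw [hκ, le_div_iff₀ hρp]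
    nlinarith [mul_pos hs (sub_pos.mpr hρ1), mul_nonneg hs.le (sub_pos.mpr hρ1).le]
  have hform : ∀ a z : ℂ, ‖(ρ : ℂ) * z + -((ρ : ℂ) * a)‖ = ρ * ‖z - a‖ := by
    intro a z
    have : (ρ : ℂ) * z + -((ρ : ℂ) * a) = (ρ : ℂ) * (z - a) := by ring
    rw [this, norm_mul, Complex.norm_real, Real.norm_of_nonneg hρp.le]
  have hsub : ∀ a : ℂ, ‖a - ast s ρ a‖ = κ * ‖a‖ := fun a => norm_sub_ast hs hρp hρ1 a
  have hpos : ∀ a ∈ rs Ps, ∀ z, 0 < pc (ast s ρ a) (ρ : ℂ) (-((ρ : ℂ) * a)) z := by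
    intro a ha z
    have hna : 0 < ‖a‖ := norm_pos_iff.mpr (ha0 a ha)
    unfold pc
    rw [hform]
    by_cases hz : z = a
    · subst hz
      apply lt_max_of_lt_left
      rw [hsub]
      positivity
    · apply lt_max_of_lt_right
      have : 0 < ‖z - a‖ := norm_pos_iff.mpr (sub_ne_zero.mpr hz)
      positivity
  -- parameters
  set Δ : ℕ := dg Ps with hΔ
  have hΔpos : 0 < Δ := by
    obtain ⟨P, hP⟩ := hne
    have h1 := (hBAS P (hF P hP).1 (hF P hP).2).1
    have h2 : P.natDegree ≤ dg Ps := Finset.single_le_sum (f := fun P : ℤ[X] => P.natDegree)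
      (fun _ _ => Nat.zero_le _) hP
    omega
  have hΔR : (1 : ℝ) ≤ (Δ : ℝ) := by exact_mod_cast hΔpos
  have hlr0 : 0 < Real.log (1 / ρ) := Real.log_pos (by rw [lt_div_iff₀ hρp]; linarith)
  have hlr1 : Real.log (1 / ρ) ≤ 2 * (1 - ρ) := by
    have h1 := Real.log_le_sub_one_of_pos (show (0:ℝ) < 1 / ρ by positivity)
    have h2 : 1 / ρ - 1 ≤ 2 * (1 - ρ) := by
      rw [div_sub_one hρp.ne', div_le_iff₀ hρp]
      nlinarith
    linarith
  have hlq : 0 < Real.log (1 / (s * (1 - ρ))) := by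
    apply Real.log_pos
    rw [lt_div_iff₀ (mul_pos hs (by linarith))]
    nlinarith
  set A' : ℝ := 2 * Δ * (1 - ρ) + Real.log (1 / (s * (1 - ρ))) with hA'
  have hA'0 : 0 < A' := by
    have : 0 ≤ 2 * (Δ : ℝ) * (1 - ρ) := by
      apply mul_nonneg (by positivity); linarith
    linarith
  have hlam' : Δ * Real.log (1 / ρ) ≤ 2 * Δ * (1 - ρ) := by
    nlinarith
  have h10 : (2 : ℝ) < Real.log 10 := by
    rw [Real.lt_log_iff_exp_lt (by norm_num)]
    have h1 := Real.exp_one_lt_d9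
    have h2 : Real.exp 2 = Real.exp 1 ^ 2 := by rw [← Real.exp_nat_mul]; norm_num
    rw [h2]
    have h3 : (0 : ℝ) < Real.exp 1 := Real.exp_pos 1
    nlinarith
  set m : ℕ := ⌈(A' + 1) / Real.log 10⌉₊ with hm
  have hm1 : A' + 1 ≤ m * Real.log 10 := by
    have h1 := Nat.le_ceil ((A' + 1) / Real.log 10)
    rw [← hm, div_le_iff₀ (by linarith)] at h1
    exact h1
  have hm2 : (m : ℝ) ≤ (A' + 1) / 2 + 1 := by
    have h1 := Nat.ceil_lt_add_one (show 0 ≤ (A' + 1) / Real.log 10 by positivity)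
    rw [← hm] at h1
    have h2 : (A' + 1) / Real.log 10 ≤ (A' + 1) / 2 :=
      div_le_div_of_nonneg_left (by linarith) (by norm_num) h10.le
    linarith
  have hsumS : ∑ a ∈ rs Ps, (1 : ℕ) = Δ := by
    rw [Finset.sum_const, hcard, smul_eq_mul, mul_one]
  have hnaP : 0 ≤ ∑ a ∈ rs Ps, ‖a‖ := Finset.sum_nonneg fun a _ => norm_nonneg a
  have key := hETP θ Ps ℂ (rs Ps) (fun a => ast s ρ a) (fun _ => (ρ : ℂ)) (fun a => -((ρ : ℂ) * a))
    (fun _ => 1) (fun a => conj a) {0} (fun _ => b) (fun _ => 10) (fun _ => m) 1 0 1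
    (2 * (∑ a ∈ rs Ps, ‖a‖) + 2 * b) (Δ * Real.log (1 / ρ)) A' 0 (m * Real.log 10)
    (fun a => Real.posLog ‖a‖ + 10 * s) (fun _ => Real.log (2 * b)) 0
    hF hne
    (by
      intro a ha
      refine ⟨hconj a ha, Complex.conj_conj a, ast_conj s ρ a, by simp, by simp, rfl⟩)
    (by
      intro a _
      rw [Complex.norm_real, Real.norm_of_nonneg hρp.le]
      exact hρ1)
    hpos
    (by
      intro a ha z hz
      rw [hform] at hz
      obtain ⟨g1, g2, -⟩ := hG a ha z hz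
      refine ⟨g1, g2.trans ?_⟩
      have : ‖a‖ ≤ ∑ a ∈ rs Ps, ‖a‖ := Finset.single_le_sum (f := fun a : ℂ => ‖a‖)
        (fun a _ => norm_nonneg a) ha
      linarith)
    (by intro j _; exact le_refl _)
    (by
      intro j _ z hz
      obtain ⟨g1, g2⟩ := hb1 z hz
      exact ⟨g1.trans hθ₀, by linarith⟩)
    one_pos le_rfl (by intro h; exact absurd rfl h) le_rfl
    (by rw [hsumS, one_mul])
    (by
      rw [hsumS, one_mul]
      exact Nat.le_add_right _ _)
    (by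
      intro z _
      rw [pow_one, norm_ev_pr hBASF hF]
      have h1 : Real.exp (Δ * Real.log (1 / ρ)) = ∏ a ∈ rs Ps, (1 / ρ) := by
        rw [Finset.prod_const, hcard, ← Real.rpow_natCast, Real.rpow_def_of_pos (by positivity),
          mul_comm]
      rw [h1, ← Finset.prod_mul_distrib]
      apply Finset.prod_le_prod
      · intro a _; exact norm_nonneg _
      · intro a ha
        rw [pow_one, div_mul_eq_mul_div, one_mul, le_div_iff₀ hρp]
        unfold pc
        rw [hform]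
        exact le_max_of_le_right (by rw [mul_comm]))
    (by
      intro z _
      rw [Finset.prod_singleton, mul_comm, Real.exp_mul, Real.exp_log (by norm_num),
        Real.rpow_natCast]
      exact pow_le_pow_left₀ (by norm_num) (le_max_right _ _) m)
    (by positivity) hA'0.le
    (by
      intro P hP
      have hPs : rts P ⊆ rs Ps := Finset.subset_biUnion_of_mem rts hP
      obtain ⟨p1, p2, p3, p4, -⟩ := hBAS P (hF P hP).1 (hF P hP).2
      -- lower bound at each root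
      have hterm : ∀ a ∈ rts P,
          Real.log κ + Real.log ‖a‖ - Δ * Real.log (1 / ρ)
            + ∑ a' ∈ (rs Ps).erase a, Real.log ‖a - a'‖
          ≤ Real.log (∏ i ∈ rs Ps, pc (ast s ρ i) (ρ : ℂ) (-((ρ : ℂ) * i)) a ^ 1) := by
        intro a ha
        have haR : a ∈ rs Ps := hPs ha
        have hna : 0 < ‖a‖ := norm_pos_iff.mpr (ha0 a haR)
        rw [Real.log_prod (hf := fun i hi => (pow_pos (hpos i hi a) 1).ne')]
        rw [← Finset.add_sum_erase (rs Ps) _ haR]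
        have e1 : Real.log κ + Real.log ‖a‖
            ≤ Real.log (pc (ast s ρ a) (ρ : ℂ) (-((ρ : ℂ) * a)) a ^ 1) := by
          rw [← Real.log_mul hκ0.ne' hna.ne', pow_one]
          apply Real.log_le_log (by positivity)
          unfold pc
          apply le_max_of_le_left
          rw [hsub]
        have e2 : ∀ i ∈ (rs Ps).erase a, -Real.log (1 / ρ) + Real.log ‖a - i‖
            ≤ Real.log (pc (ast s ρ i) (ρ : ℂ) (-((ρ : ℂ) * i)) a ^ 1) := by
          intro i hi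
          have hne' : 0 < ‖a - i‖ := norm_pos_iff.mpr (sub_ne_zero.mpr (Finset.ne_of_mem_erase hi).symm)
          rw [one_div, Real.log_inv, neg_neg, ← Real.log_mul hρp.ne' hne'.ne', pow_one]
          apply Real.log_le_log (by positivity)
          unfold pc
          apply le_max_of_le_right
          rw [hform]
        have e3 := Finset.sum_le_sum e2
        rw [Finset.sum_add_distrib, Finset.sum_const, nsmul_eq_mul,
          Finset.card_erase_of_mem haR, hcard] at e3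
        have e4 : ((Δ - 1 : ℕ) : ℝ) ≤ (Δ : ℝ) := by exact_mod_cast Nat.sub_le _ _
        have e5 : ((Δ - 1 : ℕ) : ℝ) * Real.log (1 / ρ) ≤ Δ * Real.log (1 / ρ) :=
          mul_le_mul_of_nonneg_right e4 hlr0.le
        linarith
      have h1 := Finset.sum_le_sum hterm
      rw [Finset.sum_add_distrib, Finset.sum_sub_distrib, Finset.sum_add_distrib,
        Finset.sum_const, Finset.sum_const, nsmul_eq_mul, nsmul_eq_mul, p3] at h1
      have h2 := dsc_log hDSC hF hP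
      have h3 := sum_log_nonneg hBAS (hF P hP).1 (hF P hP).2 (hadm P hP).2.2.1
      have h4 : -Real.log (1 / (s * (1 - ρ))) ≤ Real.log κ := by
        rw [one_div, Real.log_inv, neg_neg]
        exact Real.log_le_log (mul_pos hs (by linarith)) hκ1
      have h5 : (0 : ℝ) < P.natDegree := by exact_mod_cast p1
      have h6 : -(A' * P.natDegree)
          ≤ P.natDegree * Real.log κ - P.natDegree * (Δ * Real.log (1 / ρ)) := by
        rw [hA']
        nlinarith
      linarith)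
    (by
      rw [max_eq_left (by linarith)]
      exact hm1)
    (by intro h; exact absurd rfl h)
    (by
      intro a ha
      exact cost_piece hCOST hs (hss.trans hs₁') hρ0 hρ1 (ha0 a ha) (fun z hz => (hG a ha z hz).2.2))
    (by intro j _; exact hb2)
    (by intro h; exact absurd rfl h)
  refine ach_mono ?_ key
  have hsumlog : ∑ a ∈ rs Ps, Real.posLog ‖a‖ = ∑ P ∈ Ps, Real.log (MM P) := by
    rw [sum_rs hBASF hF]
    exact Finset.sum_congr rfl fun P hP => ((hBAS P (hF P hP).1 (hF P hP).2).2.2.2.2).symm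
  have hMpos : 0 ≤ ∑ P ∈ Ps, Real.log (MM P) :=
    Finset.sum_nonneg fun P hP => (Real.log_pos (hadm P hP).2.2.2.2).le
  have hnum : (∑ i ∈ rs Ps, ((1 : ℕ) : ℝ) * (Real.posLog ‖i‖ + 10 * s)
      + ∑ j ∈ ({0} : Finset ℕ), (m : ℝ) * Real.log (2 * b) + ((0 : ℕ) : ℝ) * 0)
      = ∑ P ∈ Ps, Real.log (MM P) + Δ * (10 * s) + m * Real.log (2 * b) := by
    rw [Finset.sum_singleton]
    simp only [Nat.cast_one, one_mul, Nat.cast_zero, mul_zero, add_zero]
    rw [Finset.sum_add_distrib, hsumlog, Finset.sum_const, hcard, nsmul_eq_mul]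
  have hden : (((∑ i ∈ rs Ps, (1 : ℕ)) + ∑ j ∈ ({0} : Finset ℕ), m + 0 : ℕ) : ℝ) = Δ + m := by
    rw [hsumS, Finset.sum_singleton]
    push_cast
    ring
  rw [hnum, hden]
  have hΔ0 : (0 : ℝ) < Δ := by linarith
  have hm0 : (0 : ℝ) ≤ m := Nat.cast_nonneg m
  have hN0 : 0 ≤ ∑ P ∈ Ps, Real.log (MM P) + Δ * (10 * s) + m * Real.log (2 * b) := by
    positivity
  calc (∑ P ∈ Ps, Real.log (MM P) + Δ * (10 * s) + m * Real.log (2 * b)) / (Δ + m)
      ≤ (∑ P ∈ Ps, Real.log (MM P) + Δ * (10 * s) + m * Real.log (2 * b)) / Δ :=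
        div_le_div_of_nonneg_left hN0 hΔ0 (by linarith)
    _ ≤ _ := by
        have e1 : m * Real.log (2 * b)
            ≤ 2 * Real.log (2 * b) * (Δ * (1 - ρ) + Real.log (1 / (s * (1 - ρ))) + 1) := by
          have : (m : ℝ) ≤ 2 * (Δ * (1 - ρ) + Real.log (1 / (s * (1 - ρ))) + 1) := by
            rw [hA'] at hm2
            nlinarith [mul_nonneg hΔ0.le (sub_pos.mpr hρ1).le]
          nlinarith
        have e2 : (∑ P ∈ Ps, Real.log (MM P)) / Δ + 10 * s
            + 2 * Real.log (2 * b) * (Δ * (1 - ρ) + Real.log (1 / (s * (1 - ρ))) + 1) / Δ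
            = (∑ P ∈ Ps, Real.log (MM P) + Δ * (10 * s)
              + 2 * Real.log (2 * b) * (Δ * (1 - ρ) + Real.log (1 / (s * (1 - ρ))) + 1)) / Δ := by
          field_simp
        rw [e2]
        apply div_le_div_of_nonneg_right _ hΔ0.le
        linarith

end Pool.Agent.Work.MP_ce2d68_st.helper71
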